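import Pool.Agent.H681.SX.SM2
import Pool.Graph.R_seed8.Y969.SM.Res
import Pool.Graph.R_seed8.Y969.SM.Fin
import Pool.Graph.R_seed8.Y969.SM.Win
import Pool.Graph.R_seed8.Y969.SM.Rel
import Pool.Graph.R_seed8.Y514.SX.ZE
import Pool.Graph.R_seed8.Y953.SX.Ort
import Pool.Graph.R_seed8.Y781.SX.LB
import Pool.Graph.R_seed8.Y81.SX.AAP
import Pool.Graph.R_seed8.Y81.SX.T0
import Pool.Graph.R_seed8.Y96.SX.ZM
import Pool.Graph.R_seed8.Y604.SX.AS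
import Pool.Graph.R_seed8.Y739.SX.FA
import Pool.Graph.R_seed8.Y809.SX.UB0
import Pool.Graph.R_seed8.Y246.SX.W1
import Pool.Graph.R_seed8.Y293.SX.TL2
import Pool.Graph.R_seed8.Y360.SX.F8
import Pool.Graph.R_seed8.Y369.SX.Ars
import Pool.Graph.R_seed8.Y4.SX.UB
import Pool.Graph.R_seed8.Y429.SX.FB
import Pool.Graph.R_seed8.Y448.SX.W2
import Pool.Graph.R_seed8.Y475.SX.SHP
import Pool.Graph.R_seed8.Y54.SX.A2
import Pool.Graph.R_seed8.Y547.SX.Min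
import Pool.Graph.R_seed8.Y620.SX.CRA
import Pool.Graph.R_seed8.Y670.SX.TAY
import Pool.Graph.R_seed8.Y686.SX.Lsm
import Pool.Graph.R_seed8.Y726.SX.TWC
import Pool.Graph.R_seed8.Y76.SX.ARI
import Pool.Graph.R_seed8.Y77.SX.CTW
import Pool.Graph.R_seed8.Y780.SX.Blk
import Pool.Graph.R_seed8.Y812.SX.OMX
import Pool.Graph.R_seed8.Y852.SX.Loc
import Pool.Graph.R_seed8.Y901.SX.A1
import Pool.Graph.R_seed8.Y978.SX.EUL
import Pool.Graph.R_seed8.Y983.SX.EUT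
import Pool.Graph.R_seed8.Y891.GP.AFE
import Pool.Graph.R_seed8.Y587.GP.V
import Pool.Graph.R_seed8.Y587.GP.Chi
import Pool.Graph.R_seed8.Y125.GP.LSW
import Pool.Graph.R_seed8.Y545.GP.CR
import Pool.Graph.R_seed8.Y379.GP.Sp
import Pool.Graph.R_seed8.TH806.N4.Abs

set_option autoImplicit false

/-!
Project SX (library run R_seed8, Y969/SM, by helper969 of that run): all packages put together.
-/

namespace Pool.Agent.H681.SX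

open Filter MeasureTheory
open Pool.Agent.Y969.SM
open Pool.Agent.H306R2.SM (om)
open Pool.Agent.H262R4.TM (Rng)

theorem hSP : Pool.Agent.Y969.GP.S_SP := Pool.Agent.Y379.GP.t_SP

theorem hORT : S_ORT := Pool.Agent.Y953.SX.t_ORT hSP

theorem hV : Pool.Agent.Y969.GP.S_V := Pool.Agent.Y587.GP.t_V

theorem hAFE : Pool.Agent.Y969.GP.S_AFE := Pool.Agent.Y891.GP.t_AFE hV Pool.Agent.Y587.GP.Chi.t_CHI

theorem hAA : S_AA := Pool.Agent.Y81.SX.AAP.t_AA Pool.Agent.Y852.SX.t_LOC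

/-- the first moment of the model, in the form needed for the replacement steps -/
theorem fa5 {k : ℕ} (h : S_FA k) : ∀ᶠ T : ℝ in atTop, ∀ κ : ℕ, Rng T κ →
    ∫ t in Set.Ioi (0:ℝ), om κ (κ / T) t * |F0 k T t| ≤ Real.log T ^ 5 ∧
      IntegrableOn (fun t => om κ (κ / T) t * |F0 k T t|) (Set.Ioi 0) := by
  obtain ⟨C, hC, h⟩ := h
  have hlog : ∀ᶠ T : ℝ in atTop, C ≤ Real.log T := Real.tendsto_log_atTop.eventually_ge_atTop C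
  filter_upwards [h, hlog] with T h1 h2 κ hκ
  obtain ⟨-, q2, -, -, q5, -⟩ := h1 κ hκ
  refine ⟨q5.trans ?_, q2⟩
  calc C * Real.log T ^ 4 ≤ Real.log T * Real.log T ^ 4 := by gcongr
    _ = Real.log T ^ 5 := by ring

theorem fa4 {k : ℕ} (h : S_FA k) : ∃ C : ℝ, 0 < C ∧ ∀ᶠ T : ℝ in atTop, ∀ κ : ℕ, Rng T κ →
    ∫ t in Set.Ioi (0:ℝ), om κ (κ / T) t * Xz t ^ 4 ≤ C * Real.log T ^ 4 := by
  obtain ⟨C, hC, h⟩ := h
  refine ⟨C, hC, ?_⟩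
  filter_upwards [h] with T h1 κ hκ
  exact (h1 κ hκ).2.2.2.2.2

theorem hAS {k : ℕ} (hk : 2 ≤ k) (h : S_FA k) : S_AS :=
  Pool.Agent.Y604.SX.t_AS Pool.Agent.Y726.SX.t_TWC Pool.Agent.TH384.N4_FM.t_FM Pool.Agent.TH806.N4.a_ING
    Pool.Agent.Y901.SX.t_A1 Pool.Agent.Y54.SX.t_A2 ⟨k, hk, h⟩

theorem hMAIN : S_MAIN := by
  obtain ⟨k₀, hk₀⟩ := Pool.Agent.Y739.SX.t_FA
  set k : ℕ := max k₀ 2 with hkd
  have hk2 : 2 ≤ k := le_max_right _ _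
  have hFA : S_FA k := hk₀ k (le_max_left _ _)
  have hFB : S_FB k := Pool.Agent.Y429.SX.t_FB Pool.Agent.Y360.SX.t_F8 k hk2
  have hUB : S_UB k := Pool.Agent.Y4.SX.t_UB k
    (Pool.Agent.Y809.SX.t_UB0 Pool.Agent.Y726.SX.t_TWC Pool.Agent.TH384.N4_FM.t_FM Pool.Agent.Y369.SX.t_ARS k hk2) hFB
  have hW1 : S_W1 k := Pool.Agent.Y246.SX.t_W1 k hFA hFB t_SM
  have hW2 : S_W2 k := Pool.Agent.Y448.SX.t_W2 k hFB (fa5 hFA) hAFE t_SM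
  have hMIN : S_MIN k := Pool.Agent.Y547.SX.t_MIN k Pool.Agent.Y780.SX.t_BLK hFB (fa5 hFA)
    (Pool.Agent.Y125.GP.t_LSW hSP) (Pool.Agent.Y545.GP.t_CR hV)
  have hTAY : S_TAY k := Pool.Agent.Y670.SX.t_TAY k (Pool.Agent.Y620.SX.t_CRA hV) Pool.Agent.Y812.SX.t_OMX hORT hFA hFB
  have hTL2 : S_TL2 k := Pool.Agent.Y293.SX.t_TL2 k hUB hORT Pool.Agent.Y76.SX.t_ARI hFB
  have hT0 : S_T0 k := Pool.Agent.Y81.SX.T0.t_T0 k hUB (hAS hk2 hFA) hFA hORT Pool.Agent.Y76.SX.t_ARI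
    Pool.Agent.Y76.SX.t_W2B hFB
  have hWIN : S_WIN := t_WIN k hFB hW1 hW2 hMIN hTAY hTL2 hT0 Pool.Agent.Y77.SX.t_CTW hV
  have hSHP : S_SHP := Pool.Agent.Y475.SX.t_SHP t_SM Pool.Agent.Y77.SX.t_CTW (fa4 hFA)
  have hEUL : S_EUL := Pool.Agent.Y978.SX.t_EUL Pool.Agent.Y852.SX.t_LOC
    (Pool.Agent.Y983.SX.EUT.t_EUT Pool.Agent.Y686.SX.t_LSM) hORT Pool.Agent.Y76.SX.t_ARI Pool.Agent.Y76.SX.t_W2B
  exact t_MAIN hWIN hSHP hEUL Pool.Agent.Y77.SX.t_CTW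

theorem hREL : S_REL := t_REL hMAIN (Pool.Agent.Y781.SX.t_LB Pool.Agent.Y852.SX.t_LOC)
  (Pool.Agent.Y514.SX.t_ZE hAA Pool.Agent.Y96.SX.t_ZM)

end Pool.Agent.H681.SX
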