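import Pool.Agent.H681.GF.SM
import Pool.Graph.R_seed8.Y969.GP.Def
import Pool.Graph.R_seed8.TH612.GS.Z

set_option autoImplicit false

/-!
The second moment of zeta in the form of the library project GP (`S_SM`).
-/

namespace Pool.Agent.H681.SX

open Complex Filter Topology MeasureTheory Set
open Pool.Agent.Y969.GP (ff)

theorem ff_eq (u : ℝ) : ff u = ‖Pool.Agent.TH612.GS.z u‖ ^ 2 := rfl

theorem ff_cont : Continuous ff := by
  have h : ff = fun u => ‖Pool.Agent.TH612.GS.z u‖ ^ 2 := funext ff_eq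
  rw [h]
  exact (Pool.Agent.TH612.GS.z_cont.norm).pow 2

theorem t_SM : Pool.Agent.Y969.GP.S_SM := by
  obtain ⟨C, T₀, hC, hT₀, h⟩ := Pool.Agent.H681.GF.t_SM
  have hl2 : 0 < Real.log 2 := Real.log_pos (by norm_num)
  have hlT₀ : 0 ≤ Real.log T₀ := Real.log_nonneg (by linarith)
  have hT₀0 : 0 < T₀ := by linarith
  refine ⟨C + C * T₀ * Real.log T₀ / (2 * Real.log 2), by positivity, fun T hT => ?_⟩
  have hlT : Real.log 2 ≤ Real.log T := Real.log_le_log (by norm_num) hT
  have hlT0 : 0 < Real.log T := by linarith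
  have hT0 : 0 < T := by linarith
  set q : ℝ := C * T₀ * Real.log T₀ / (2 * Real.log 2) with hq
  have hq0 : 0 ≤ q := by positivity
  have h6 : 0 ≤ C * (T * Real.log T) := by positivity
  have h7 : 0 ≤ q * (T * Real.log T) := by positivity
  have e : (C + q) * T * Real.log T = C * (T * Real.log T) + q * (T * Real.log T) := by ring
  rw [e]
  simp only [ff_eq]
  rcases le_total T₀ T with h1 | h1
  · refine (h T h1).trans ?_
    linarith
  · have h2 := h T₀ le_rfl
    have h3 : ∫ u in (0:ℝ)..(2 * T), ‖Pool.Agent.TH612.GS.z u‖ ^ 2 ≤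
        ∫ u in (0:ℝ)..(2 * T₀), ‖Pool.Agent.TH612.GS.z u‖ ^ 2 := by
      refine intervalIntegral.integral_mono_interval le_rfl (by linarith) (by linarith) ?_ ?_
      · exact Eventually.of_forall fun t => sq_nonneg _
      · exact ((Pool.Agent.TH612.GS.z_cont.norm).pow 2).intervalIntegrable _ _
    refine h3.trans (h2.trans ?_)
    have h4 : C * T₀ * Real.log T₀ = q * (2 * Real.log 2) := by
      rw [hq]; field_simp
    have h5 : q * (2 * Real.log 2) ≤ q * (T * Real.log T) := by gcongr
    rw [h4]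
    linarith

end Pool.Agent.H681.SX
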